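import Pool.Agent.MHP.Stmts

/-!
# Associativity of gluing (row ASC of squad MHP)

Problem MP_09e7c7_co.
-/

set_option autoImplicit false

namespace Pool.Agent.MHP.H47

open Pool.Agent.HMT Pool.Agent.MHP

/-- the bijection -/
def asE (V U W : Type) (y : U) (w : W) :
    (V ⊕ {a : U // a ≠ y}) ⊕ {v : W // v ≠ w} ≃
      V ⊕ {b : U ⊕ {v : W // v ≠ w} // b ≠ Sum.inl y} where
  toFun
    | .inl (.inl v) => .inl v
    | .inl (.inr a) => .inr ⟨.inl a.1, fun h => a.2 (Sum.inl.inj h)⟩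
    | .inr v => .inr ⟨.inr v, Sum.inr_ne_inl⟩
  invFun
    | .inl v => .inl (.inl v)
    | .inr ⟨.inl b, hb⟩ => .inl (.inr ⟨b, fun h => hb (congrArg Sum.inl h)⟩)
    | .inr ⟨.inr v, _⟩ => .inr v
  left_inv := by
    rintro ((v | a) | v) <;> rfl
  right_inv := by
    rintro (v | ⟨b | v, hb⟩) <;> rfl

/-- row ASC -/
theorem asc : AscStmt := by
  intro V U W y u hu w
  refine ⟨asE V U W y w, ?_⟩
  intro X x Y C a b
  rcases a with (a | ⟨a, ha⟩) | a <;> rcases b with (b | ⟨b, hb⟩) | b <;>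
    simp [asE, glue, Ne.symm hu]

end Pool.Agent.MHP.H47
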